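import Pool.Agent.Helper98.GX.St3

/-!
# Project GX (MP_140278_ag), module DRV: the derivatives with respect to the sections
-/

set_option autoImplicit false

open scoped BigOperators

namespace Pool.Agent.Helper15.GX

open Pool.Agent.Helper98.GX
open Pool.Agent.Helper53.CX (DivVal LinSys IsNefCartier)

private theorem sum_app {K : Type} [Field K] [Algebra ℂ K] {ι : Type} (s : Finset ι)
    (D : ι → Derivation ℂ K K) (f : K) : (∑ j ∈ s, D j) f = ∑ j ∈ s, D j f := by
  classical
  induction s using Finset.induction_on with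
  | empty => simp
  | insert a s ha ih => rw [Finset.sum_insert ha, Finset.sum_insert ha, Derivation.add_apply, ih]

theorem hDRV (hLPX : StLPX) : StDRV := by
  classical
  intro K _ _ V r B n L Fr
  obtain ⟨β, hβ⟩ : ∃ β : Fin r → Fin (n + r), ∀ k, Fr.bl (β k) = k :=
    ⟨fun k => (Fr.surj k).choose, fun k => (Fr.surj k).choose_spec⟩
  obtain ⟨L', e, hC⟩ := hLPX K V r B n L Fr β hβ
  obtain ⟨w, hw⟩ : ∃ w : Fin (n + r) → Fin n → K, ∀ a j,
      w a j = (if e j = a then 1 else 0) - (if a = β (Fr.bl (e j)) then 1 else 0) :=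
    ⟨_, fun a j => rfl⟩
  obtain ⟨d, hd⟩ : ∃ d : Fin (n + r) → Derivation ℂ K K, ∀ a f,
      d a f = (Fr.g a)⁻¹ * ∑ j, w a j * L'.θ j f := by
    refine ⟨fun a => (Fr.g a)⁻¹ • ∑ j, w a j • L'.θ j, fun a f => ?_⟩
    show ((Fr.g a)⁻¹ • ∑ j, w a j • L'.θ j) f = _
    rw [Derivation.smul_apply, sum_app, smul_eq_mul]
    rfl
  have hgd : ∀ a f, Fr.g a * d a f = ∑ j, w a j * L'.θ j f := by
    intro a f
    rw [hd, ← mul_assoc, mul_inv_cancel₀ (Fr.ne a), one_mul]
  have h2 : ∀ k f, ∑ a, (if Fr.bl a = k then Fr.g a * d a f else 0) = 0 := by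
    intro k f
    have e1 : ∀ a, (if Fr.bl a = k then Fr.g a * d a f else 0) =
        ∑ j, (if Fr.bl a = k then w a j * L'.θ j f else 0) := by
      intro a
      by_cases h : Fr.bl a = k
      · simp only [h, if_true]
        exact hgd a f
      · simp only [h, if_false]
        simp
    rw [Finset.sum_congr rfl (fun a _ => e1 a), Finset.sum_comm]
    refine Finset.sum_eq_zero fun j _ => ?_
    have e2 : ∀ a, (if Fr.bl a = k then w a j * L'.θ j f else 0) =
        (if a = e j then (if Fr.bl (e j) = k then L'.θ j f else 0) else 0) -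
        (if a = β (Fr.bl (e j)) then (if Fr.bl (e j) = k then L'.θ j f else 0) else 0) := by
      intro a
      rw [hw]
      by_cases h1 : a = e j
      · by_cases h3 : a = β (Fr.bl (e j))
        · subst h1
          simp only [if_true, ← h3]
          simp
        · subst h1
          have h3' : ¬ (e j = β (Fr.bl (e j))) := h3
          simp only [if_true, h3', if_false]
          simp
      · have h1' : ¬ (e j = a) := fun h => h1 h.symm
        by_cases h3 : a = β (Fr.bl (e j))
        · have h4 : Fr.bl a = Fr.bl (e j) := by rw [h3, hβ]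
          rw [h4, if_neg h1', if_pos h3, if_neg h1, if_pos h3]
          by_cases h5 : Fr.bl (e j) = k
          · simp only [if_pos h5]
            ring
          · simp only [if_neg h5]
            ring
        · simp only [h1', h1, h3, if_false]
          simp
    rw [Finset.sum_congr rfl (fun a _ => e2 a), Finset.sum_sub_distrib, Finset.sum_ite_eq' ,
      Finset.sum_ite_eq']
    simp
  refine ⟨d, fun a l => ((if a = β l then 1 else 0) - d a (Fr.g (β l))) / Fr.g (β l), ?_, h2, ?_⟩
  · intro a b
    beta_reduce
    have hG : Fr.g (β (Fr.bl b)) ≠ 0 := Fr.ne _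
    by_cases hb : b = β (Fr.bl b)
    · rw [← hb, div_mul_cancel₀ _ (Fr.ne b)]
      ring
    · obtain ⟨j, hj⟩ := (hC.range b).2 hb
      have hz : L'.z j = Fr.g b / Fr.g (β (Fr.bl b)) := by rw [hC.z_eq, hj]
      have hgb : Fr.g b = L'.z j * Fr.g (β (Fr.bl b)) := by
        rw [hz, div_mul_cancel₀ _ hG]
      have hdz : d a (L'.z j) = (Fr.g a)⁻¹ * (w a j * L'.z j) := by
        rw [hd]
        congr 1
        rw [Finset.sum_eq_single j]
        · rw [L'.theta_z, if_pos rfl]
        · intro i _ hi
          rw [L'.theta_z, if_neg (fun h => hi h.symm), mul_zero]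
        · intro h
          exact absurd (Finset.mem_univ _) h
      have hl : d a (Fr.g b) = L'.z j * d a (Fr.g (β (Fr.bl b))) +
          Fr.g (β (Fr.bl b)) * ((Fr.g a)⁻¹ * (w a j * L'.z j)) := by
        conv_lhs => rw [hgb]
        rw [Derivation.leibniz, hdz, smul_eq_mul, smul_eq_mul]
      have hsum : d a (Fr.g b) + ((if a = β (Fr.bl b) then 1 else 0) -
          d a (Fr.g (β (Fr.bl b)))) / Fr.g (β (Fr.bl b)) * Fr.g b =
          (Fr.g a)⁻¹ * w a j * Fr.g b + L'.z j * (if a = β (Fr.bl b) then 1 else 0) := by
        rw [hl]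
        have h5 : ((if a = β (Fr.bl b) then (1 : K) else 0) -
          d a (Fr.g (β (Fr.bl b)))) / Fr.g (β (Fr.bl b)) * Fr.g b =
          ((if a = β (Fr.bl b) then (1 : K) else 0) - d a (Fr.g (β (Fr.bl b)))) * L'.z j := by
          rw [hz]
          ring
        rw [h5]
        conv_rhs => rw [hgb]
        ring
      rw [hsum, hw, hj]
      by_cases h1 : a = b
      · subst h1
        simp only [if_true, hb, if_false]
        rw [sub_zero, mul_one, inv_mul_cancel₀ (Fr.ne a), mul_zero, add_zero]
      · have h1' : ¬ (b = a) := fun h => h1 h.symm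
        by_cases h3 : a = β (Fr.bl b)
        · simp only [h1, h1', if_false]
          rw [if_pos h3, hz, ← h3]
          ring
        · simp only [h1, h1', h3, if_false]
          ring
  · intro k l
    beta_reduce
    have hG : Fr.g (β l) ≠ 0 := Fr.ne _
    have e1 : ∀ a, (if Fr.bl a = k then Fr.g a *
        (((if a = β l then 1 else 0) - d a (Fr.g (β l))) / Fr.g (β l)) else 0) =
        (if a = β l then (if l = k then 1 else 0) else 0) -
        (if Fr.bl a = k then Fr.g a * d a (Fr.g (β l)) else 0) * (Fr.g (β l))⁻¹ := by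
      intro a
      by_cases h1 : Fr.bl a = k
      · by_cases h3 : a = β l
        · have h4 : l = k := by rw [← h1, h3, hβ]
          rw [if_pos h1, if_pos h3, if_pos h3, if_pos h4, if_pos h1]
          rw [h3]
          field_simp
        · rw [if_pos h1, if_neg h3, if_neg h3, if_pos h1]
          field_simp
          ring
      · by_cases h3 : a = β l
        · have h4 : ¬ (l = k) := by
            intro h
            apply h1
            rw [h3, hβ, h]
          rw [if_neg h1, if_pos h3, if_neg h4, if_neg h1]
          ring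
        · rw [if_neg h1, if_neg h3, if_neg h1]
          ring
    rw [Finset.sum_congr rfl (fun a _ => e1 a), Finset.sum_sub_distrib, ← Finset.sum_mul, h2,
      Finset.sum_ite_eq', zero_mul, sub_zero]
    simp only [Finset.mem_univ, if_true]
    by_cases h : k = l
    · rw [if_pos h, if_pos h.symm]
    · rw [if_neg h, if_neg (fun h' => h h'.symm)]

end Pool.Agent.Helper15.GX
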